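import Pool.Agent.helper52.ED.Spec

set_option autoImplicit false

open Complex Metric Set Filter Topology MeasureTheory
open Pool.Agent.helper98.ILF Pool.Agent.helper16.Multibrot HY

noncomputable section

namespace ED

/-- CLM: existence of the constant of the clean balls. -/
theorem CLM (hCLB : HY.CLB_stmt) : CLM_stmt := by
  intro n hn r hr
  obtain ⟨M₀, hM₀⟩ := hCLB n hn r hr
  refine ⟨max M₀ 1, le_max_right _ _, ?_⟩
  intro M' hM' c hc hd V φ ψ b hSG y j hOrb i hij
  refine hM₀ c hc hd V φ ψ b hSG y j ⟨hOrb.mem, hOrb.stp, ?_⟩ i hij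
  intro i' hi'
  refine le_trans (hOrb.far i' hi') ?_
  exact pow_le_pow_of_le_one (by norm_num) (by norm_num) (le_trans (le_max_left _ _) hM')

end ED
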